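import Pool.Agent.helper12.TZ.Spec

/-! Project tz (MP_baa4d7_al), row HDA: the triples with `U ⊓ ⟨s⟩ = ⊥`. -/

set_option autoImplicit false

namespace Pool.Agent.TZ

open Pool.Agent.helper58.DC Pool.Agent.DI Pool.Agent.GR Pool.Agent.OB

/-- the additive group of the `M`-integral numbers -/
def HDA_I {p : ℕ} {M : Ideal (integralClosure ℤ ℂ)} (h : Setup p M) : AddSubgroup ℂ where
  carrier := {v | IntAt M v}
  add_mem' := fun ha hb => IntAt.add h ha hb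
  zero_mem' := IntAt.zero h
  neg_mem' := fun ha => IntAt.neg ha

theorem HDA (hPAR : PAR_stmt) (hCLC : CLC_stmt) (hCLN : CLN_stmt) (hINV : INV_stmt) (hORK : ORK_stmt) : HDA_stmt := by
  intro p m c a M hS G _ _ g D hD hg hP ζ hζ f u
  have hp : Fact p.Prime := ⟨hS.pr⟩
  have hm := hPAR (Tr G) {x : Tr G | x ∈ XX p g D ∧ UX m D x ⊓ Subgroup.zpowers (x.1 ^ m) = ⊥ ∧
      ∃ κ : D, QK p m a D x κ ∧ f κ = Multiplicative.ofAdd u} (cls m D) (addOrderOf u * p ^ a * Nat.card D)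
    (wt g ζ) (HDA_I hS) ?_ ?_ ?_ ?_
  · obtain ⟨v, hv, h⟩ := hm
    exact ⟨v, hv, h⟩
  · rintro x ⟨hx, -, -⟩
    exact (hCLC G p m g D hD hg x hx).1
  · rintro x ⟨hx, hU, κ, hκ, hf⟩ x' hx'
    obtain ⟨h1, h2⟩ := (hCLC G p m g D hD hg x hx).2 x' hx'
    obtain ⟨h3, h4, h5⟩ := hINV G p m g D hD hg x hx x' hx'
    obtain ⟨d, hd, h6⟩ := h5 a κ hκ
    refine ⟨⟨h1, h4 hU, ⟨d, hd⟩ * κ * ⟨d, hd⟩⁻¹, h6, ?_⟩, h2, h3 ζ hζ.cls⟩
    rw [map_mul, map_mul, map_inv, mul_right_comm, mul_inv_cancel, one_mul, hf]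
  · rintro x ⟨hx, hU, κ, hκ, hf⟩
    rw [hCLN G p m g D hD hg x hx hU]
    obtain ⟨h1, h2⟩ := hORK G p m a g D hD x hx (hP x.1) κ hκ
    rw [h2, ← orderOf_ofAdd_eq_addOrderOf, ← hf, Subgroup.orderOf_coe]
    obtain ⟨k, hk⟩ := orderOf_map_dvd f κ
    exact ⟨k, by rw [hk]; ring⟩
  · rintro x ⟨hx, -, -⟩
    change IntAt M (wt g ζ x)
    unfold wt
    exact IntAt.mul hS (IntAt.pow hS (IntAt.neg (IntAt.one hS)) _) (hζ.int _)

end Pool.Agent.TZ
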