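import Pool.Agent.helper12.TZ.Spec
import Pool.Agent.helper22.OB.SpecG

/-! Project tz (MP_baa4d7_al), row FNV: in terms of a defect group. -/

set_option autoImplicit false

namespace Pool.Agent.TZ

open Pool.Agent.helper58.DC Pool.Agent.DI Pool.Agent.GR Pool.Agent.OB

theorem FNV (hUPV : UPV_stmt) (hDG6 : DG6_stmt) : FNV_stmt := by
  intro p M hS G _ _ hOp χ hχ D x hdef z hz hzc hzn
  have hp : Fact p.Prime := ⟨hS.pr⟩
  have hG0 : Nat.card G ≠ 0 := Nat.card_pos.ne'
  have hxD : ∀ d ∈ D, d * x = x * d := fun d hd => (Subgroup.mem_centralizer_singleton_iff.1 (hdef.le hd))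
  -- orders
  obtain ⟨k, hk⟩ : ∃ k, orderOf z = p ^ k := by
    obtain ⟨k, hk⟩ := hdef.pgrp.exists_card_eq
    have h1 : orderOf (⟨z, hz⟩ : D) ∣ p ^ k := by
      rw [← hk]
      exact orderOf_dvd_natCard _
    rw [Subgroup.orderOf_mk] at h1
    obtain ⟨j, _, hj⟩ := (Nat.dvd_prime_pow hS.pr).1 h1
    exact ⟨j, hj⟩
  have hcop : Nat.Coprime (p ^ k) (orderOf x) :=
    Nat.Coprime.pow_left k ((Nat.Prime.coprime_iff_not_dvd hS.pr).2 hdef.reg)
  have hzx : Commute z x := hxD z hz
  -- `x` is a power of `z * x`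
  obtain ⟨j, hj⟩ := exists_pow_eq_self_of_coprime hcop
  have hxpow : x = (z * x) ^ (p ^ k * j) := by
    rw [pow_mul, hzx.mul_pow, ← hk, pow_orderOf_eq_one, one_mul, hk, hj]
  have hCle : Subgroup.centralizer {z * x} ≤ Subgroup.centralizer {x} := by
    intro c hc
    rw [Subgroup.mem_centralizer_singleton_iff] at hc ⊢
    have h1 : Commute c (z * x) := hc
    have h2 := h1.pow_right (p ^ k * j)
    rw [← hxpow] at h2
    exact h2
  have hDle : D ≤ Subgroup.centralizer {z * x} := by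
    intro d hd
    rw [Subgroup.mem_centralizer_singleton_iff, ← mul_assoc, ← hzc d hd, mul_assoc, hxD d hd, mul_assoc]
  set m : ℕ := Nat.card G / p ^ (Nat.card G).factorization p with hm
  have hpm : ¬ p ∣ m := Nat.not_dvd_ordCompl hS.pr hG0
  have hmul : p ^ (Nat.card G).factorization p * m = Nat.card G := Nat.ordProj_mul_ordCompl_eq_self _ _
  have hxm : x ^ m = 1 := by
    apply orderOf_dvd_iff_pow_eq_one.1
    have h1 : orderOf x ∣ p ^ (Nat.card G).factorization p * m := by
      rw [hmul]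
      exact orderOf_dvd_natCard x
    refine Nat.Coprime.dvd_of_dvd_mul_left ?_ h1
    exact (Nat.Coprime.pow_left _ ((Nat.Prime.coprime_iff_not_dvd hS.pr).2 hdef.reg)).symm
  have hgm : (z * x) ^ m = z ^ m := by
    rw [hzx.mul_pow, hxm, mul_one]
  refine hUPV p m M hS G hOp χ hχ (z * x) D hDle hdef.pgrp ?_ (hDG6 p M hS G χ hχ D x hdef z hz hzc) ?_ ?_ ?_
  · have h1 : Nat.card D = pp p (Subgroup.centralizer ({x} : Set G)) := hdef.card
    have h2 : Nat.card D ∣ Nat.card (Subgroup.centralizer ({z * x} : Set G)) := Subgroup.card_dvd_of_le hDle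
    have h3 : Nat.card (Subgroup.centralizer ({z * x} : Set G)) ∣ Nat.card (Subgroup.centralizer ({x} : Set G)) :=
      Subgroup.card_dvd_of_le hCle
    rw [h1] at h2 ⊢
    unfold pp at h2 ⊢
    apply Nat.dvd_antisymm
    · apply pow_dvd_pow
      exact (padicValNat_dvd_iff_le Nat.card_pos.ne').1 h2
    · apply pow_dvd_pow
      exact padicValNat_dvd_iff_le Nat.card_pos.ne' |>.1 (pow_padicValNat_dvd.trans h3)
  · intro t
    refine ⟨(Nat.card G).factorization p, ?_⟩
    rw [← pow_mul, mul_comm, hmul, pow_card_eq_one']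
  · rw [hgm]
    exact D.pow_mem hz m
  · rw [hgm]
    intro h
    apply hzn
    have hcop2 : Nat.Coprime m (orderOf z) := by
      rw [hk]
      exact (Nat.Coprime.pow_left k ((Nat.Prime.coprime_iff_not_dvd hS.pr).2 hpm)).symm
    obtain ⟨n, hn⟩ := exists_pow_eq_self_of_coprime hcop2
    rw [← hn]
    exact Subgroup.pow_mem _ h n

end Pool.Agent.TZ
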